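import Pool.Agent.helper34.MO.SpecA

set_option autoImplicit false

open Complex Finset

namespace Pool.Agent.MO

theorem ACM_pt (w : ℕ → ℝ) (A : ℕ → ℕ → ℝ) (x : ℕ → ℂ) (i j : ℕ) :
    ((starRingEnd ℂ) (x i) * MT w A i j * x j).re =
      (if i = j then w i * Complex.normSq (x i) else 0) +
        A i j * ((starRingEnd ℂ) (x i) * x j).im := by
  unfold MT
  by_cases h : i = j
  · subst h
    rw [if_pos rfl, if_pos rfl]
    simp only [Complex.mul_re, Complex.mul_im, Complex.sub_re, Complex.sub_im, Complex.conj_re,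
      Complex.conj_im, Complex.ofReal_re, Complex.ofReal_im, Complex.I_re, Complex.I_im,
      Complex.normSq_apply]
    ring
  · rw [if_neg h, if_neg h]
    simp only [Complex.mul_re, Complex.mul_im, Complex.sub_re, Complex.sub_im, Complex.conj_re,
      Complex.conj_im, Complex.ofReal_re, Complex.ofReal_im, Complex.I_re, Complex.I_im,
      Complex.zero_re, Complex.zero_im]
    ring

theorem ACM : ACM_stmt := by
  classical
  intro w A S hw hA x hx
  obtain ⟨k, hk, hxk⟩ := hx
  rw [Complex.re_sum]
  have h1 : ∀ i ∈ S, (∑ j ∈ S, (starRingEnd ℂ) (x i) * MT w A i j * x j).re =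
      w i * Complex.normSq (x i) + ∑ j ∈ S, A i j * ((starRingEnd ℂ) (x i) * x j).im := by
    intro i hi
    rw [Complex.re_sum, Finset.sum_congr rfl fun j _ => ACM_pt w A x i j, Finset.sum_add_distrib]
    congr 1
    rw [Finset.sum_ite_eq, if_pos hi]
  rw [Finset.sum_congr rfl h1, Finset.sum_add_distrib]
  have h2 : ∑ i ∈ S, ∑ j ∈ S, A i j * ((starRingEnd ℂ) (x i) * x j).im = 0 := by
    have h3 : ∑ i ∈ S, ∑ j ∈ S, A i j * ((starRingEnd ℂ) (x i) * x j).im =
        -∑ i ∈ S, ∑ j ∈ S, A i j * ((starRingEnd ℂ) (x i) * x j).im := by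
      conv_lhs => rw [Finset.sum_comm]
      rw [← Finset.sum_neg_distrib]
      refine Finset.sum_congr rfl fun i _ => ?_
      rw [← Finset.sum_neg_distrib]
      refine Finset.sum_congr rfl fun j _ => ?_
      rw [hA j i]
      simp only [Complex.mul_im, Complex.conj_re, Complex.conj_im]
      ring
    linarith
  rw [h2, add_zero]
  have h4 : w k * Complex.normSq (x k) ≤ ∑ i ∈ S, w i * Complex.normSq (x i) :=
    Finset.single_le_sum (f := fun i => w i * Complex.normSq (x i))
      (fun i _ => mul_nonneg (hw i).le (Complex.normSq_nonneg _)) hk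
  have h5 : 0 < w k * Complex.normSq (x k) := mul_pos (hw k) (Complex.normSq_pos.2 hxk)
  linarith

end Pool.Agent.MO
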