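import Pool.Agent.helper34.MO.SpecD

set_option autoImplicit false

open Complex Finset

namespace Pool.Agent.MO

theorem CB2 : CB2_stmt := by
  intro τ
  induction τ with
  | e =>
    intro ma mb
    simp [Tr.sz, lowc, hsum, Tr.ls, Tr.rs]
  | nd l r ihl ihr =>
    intro ma mb
    have h1 := ihl ma (l.rs + r.ls)
    have h2 := ihr (l.rs + r.ls) mb
    simp only [Tr.sz, lowc, hsum, Tr.ls, Tr.rs]
    by_cases hl : ma < 13 ∧ mb < 13 ∧ l.rs + r.ls < 13
    · rw [if_pos hl]
      rw [if_neg (by omega : ¬ 13 ≤ l.rs + r.ls), if_neg (by omega : ¬ 13 ≤ ma),
        if_neg (by omega : ¬ 13 ≤ mb)]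
      rw [if_neg (by omega : ¬ 13 ≤ l.rs + r.ls), if_neg (by omega : ¬ 13 ≤ ma)] at h1
      rw [if_neg (by omega : ¬ 13 ≤ l.rs + r.ls), if_neg (by omega : ¬ 13 ≤ mb)] at h2
      push_cast
      linarith
    · rw [if_neg hl]
      by_cases ha : 13 ≤ ma
      · rw [if_pos ha]
        rw [if_pos ha] at h1
        by_cases hb : 13 ≤ mb
        · rw [if_pos hb]
          rw [if_pos hb] at h2
          by_cases hm : 13 ≤ l.rs + r.ls
          · rw [if_pos hm]
            rw [if_pos hm] at h1 h2
            push_cast
            linarith
          · rw [if_neg hm]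
            rw [if_neg hm] at h1 h2
            push_cast
            linarith
        · rw [if_neg hb]
          rw [if_neg hb] at h2
          by_cases hm : 13 ≤ l.rs + r.ls
          · rw [if_pos hm]
            rw [if_pos hm] at h1 h2
            push_cast
            linarith
          · rw [if_neg hm]
            rw [if_neg hm] at h1 h2
            push_cast
            linarith
      · rw [if_neg ha]
        rw [if_neg ha] at h1
        by_cases hb : 13 ≤ mb
        · rw [if_pos hb]
          rw [if_pos hb] at h2
          by_cases hm : 13 ≤ l.rs + r.ls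
          · rw [if_pos hm]
            rw [if_pos hm] at h1 h2
            push_cast
            linarith
          · rw [if_neg hm]
            rw [if_neg hm] at h1 h2
            push_cast
            linarith
        · rw [if_neg hb]
          rw [if_neg hb] at h2
          have hm : 13 ≤ l.rs + r.ls := by omega
          rw [if_pos hm]
          rw [if_pos hm] at h1 h2
          push_cast
          linarith

end Pool.Agent.MO
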