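import Pool.Agent.helper34.MO.SpecD

set_option autoImplicit false

open Complex Finset

namespace Pool.Agent.MO

/-- indicator -/
noncomputable def TR3_d (x a : ℕ) : ℝ := if x = a then 1 else 0

/-- the port edge -/
noncomputable def TR3_E (i j x y : ℕ) : ℝ := if (x = i ∧ y = j) ∨ (x = j ∧ y = i) then 1 else 0

/-- the branch with its port edge -/
noncomputable def TR3_B (t : Tr) (i x y : ℕ) : ℝ := TR3_E i (i + t.sz + 1) x y + AT t i x y

noncomputable def TR3_P (i j k x y z : ℕ) : ℝ :=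
  TR3_d x i * TR3_d y j * TR3_d z k + TR3_d x j * TR3_d y i * TR3_d z k +
  TR3_d y i * TR3_d z j * TR3_d x k + TR3_d y j * TR3_d z i * TR3_d x k +
  TR3_d z i * TR3_d x j * TR3_d y k + TR3_d z j * TR3_d x i * TR3_d y k

theorem TR3_rot (i j k x y z : ℕ) : TR3_P i j k x y z = TR3_P i j k y z x := by
  unfold TR3_P
  ring

structure TR3_ok (F : ℕ → ℕ → ℝ) (i j : ℕ) : Prop where
  sym : ∀ x y, F x y = F y x
  supp : ∀ x y, F x y ≠ 0 → i ≤ x ∧ x ≤ j ∧ i ≤ y ∧ y ≤ j
  diag : ∀ x, F x x = 0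
  port : F i j = 1

theorem TR3_okB (hATS : ATS_stmt) (t : Tr) (i : ℕ) : TR3_ok (TR3_B t i) i (i + t.sz + 1) := by
  have h := hATS.1 t i
  refine ⟨fun x y => ?_, fun x y hxy => ?_, fun x => ?_, ?_⟩
  · unfold TR3_B TR3_E
    rw [(h x y).1]
    congr 1
    have : ((x = i ∧ y = i + t.sz + 1) ∨ (x = i + t.sz + 1 ∧ y = i)) ↔
        ((y = i ∧ x = i + t.sz + 1) ∨ (y = i + t.sz + 1 ∧ x = i)) := by tauto
    simp only [this]
  · by_cases h1 : (x = i ∧ y = i + t.sz + 1) ∨ (x = i + t.sz + 1 ∧ y = i)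
    · omega
    · unfold TR3_B TR3_E at hxy
      rw [if_neg h1, zero_add] at hxy
      exact (h x y).2.2.2.1 hxy
  · unfold TR3_B TR3_E
    rw [(h x x).2.2.1, if_neg (by omega)]
    norm_num
  · unfold TR3_B TR3_E
    rw [(h i i).2.2.2.2, if_pos (Or.inl ⟨rfl, rfl⟩)]
    norm_num

theorem TR3_nd (l r : Tr) (i x y : ℕ) :
    AT (.nd l r) i x y = TR3_B l i x y + TR3_B r (i + l.sz + 1) x y := by
  unfold TR3_B TR3_E
  simp only [AT]
  by_cases h1 : (x = i ∧ y = i + l.sz + 1) ∨ (x = i + l.sz + 1 ∧ y = i)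
  · have h2 : ¬ ((x = i + l.sz + 1 ∧ y = i + l.sz + 1 + r.sz + 1) ∨
        (x = i + l.sz + 1 + r.sz + 1 ∧ y = i + l.sz + 1)) := by omega
    rw [if_pos h1, if_neg h2, if_pos (by tauto)]
    ring
  · by_cases h2 : (x = i + l.sz + 1 ∧ y = i + l.sz + 1 + r.sz + 1) ∨
        (x = i + l.sz + 1 + r.sz + 1 ∧ y = i + l.sz + 1)
    · rw [if_neg h1, if_pos h2, if_pos (by tauto)]
      ring
    · rw [if_neg h1, if_neg h2, if_neg (by tauto)]
      ring

section key

variable {A B : ℕ → ℕ → ℝ} {i j k : ℕ}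

theorem TR3_A0 (hA : TR3_ok A i k) {x y : ℕ} (h : x < i ∨ k < x ∨ y < i ∨ k < y) : A x y = 0 := by
  by_contra hne
  have := hA.supp x y hne
  omega

theorem TR3_L1 (hA : TR3_ok A i k) (hB : TR3_ok B k j) (x y z : ℕ) : A x y * A y z * B z x = 0 := by
  by_contra hne
  have h1 : A x y ≠ 0 := fun h => hne (by rw [h]; ring)
  have h2 : A y z ≠ 0 := fun h => hne (by rw [h]; ring)
  have h3 : B z x ≠ 0 := fun h => hne (by rw [h]; ring)
  have e1 := hA.supp _ _ h1
  have e2 := hA.supp _ _ h2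
  have e3 := hB.supp _ _ h3
  have e4 : z = x := by omega
  rw [e4] at h3
  exact h3 (hB.diag x)

theorem TR3_L2 (hA : TR3_ok A i k) (hB : TR3_ok B k j) (x y z : ℕ) : A x y * B y z * B z x = 0 := by
  by_contra hne
  have h1 : A x y ≠ 0 := fun h => hne (by rw [h]; ring)
  have h2 : B y z ≠ 0 := fun h => hne (by rw [h]; ring)
  have h3 : B z x ≠ 0 := fun h => hne (by rw [h]; ring)
  have e1 := hA.supp _ _ h1
  have e2 := hB.supp _ _ h2
  have e3 := hB.supp _ _ h3
  have e4 : x = y := by omega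
  rw [e4] at h1
  exact h1 (hA.diag y)

/-- the sum -/
noncomputable def TR3_F (A B : ℕ → ℕ → ℝ) (i j x y : ℕ) : ℝ := TR3_E i j x y + (A x y + B x y)

theorem TR3_c1 (hA : TR3_ok A i k) (hB : TR3_ok B k j) (hik : i < k) (hkj : k < j) (x y z : ℕ)
    (hE : (x = i ∧ y = j) ∨ (x = j ∧ y = i)) :
    TR3_F A B i j x y * TR3_F A B i j y z * TR3_F A B i j z x =
      A x y * A y z * A z x + B x y * B y z * B z x + TR3_P i j k x y z := by
  have hij : i < j := by omega
  have hF : ∀ z, TR3_F A B i j z z = 0 := by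
    intro z
    unfold TR3_F TR3_E
    rw [hA.diag, hB.diag, if_neg (by omega)]
    norm_num
  rcases hE with ⟨rfl, rfl⟩ | ⟨rfl, rfl⟩
  · have a1 : A x y = 0 := TR3_A0 hA (by omega)
    have b1 : B x y = 0 := TR3_A0 hB (by omega)
    have a2 : A y z = 0 := TR3_A0 hA (by omega)
    have b3 : B z x = 0 := TR3_A0 hB (by omega)
    have f1 : TR3_F A B x y x y = 1 := by
      unfold TR3_F TR3_E
      rw [a1, b1, if_pos (Or.inl ⟨rfl, rfl⟩)]
      norm_num
    rw [f1, a1, b1]
    by_cases hzx : z = x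
    · subst hzx
      rw [hF]
      unfold TR3_P TR3_d
      simp [hij.ne, hij.ne', hik.ne, hik.ne', hkj.ne, hkj.ne']
    · by_cases hzy : z = y
      · subst hzy
        rw [hF]
        unfold TR3_P TR3_d
        simp [hij.ne, hij.ne', hik.ne, hik.ne', hkj.ne, hkj.ne']
      · have f2 : TR3_F A B x y y z = B y z := by
          unfold TR3_F TR3_E
          rw [a2, if_neg (by omega)]
          ring
        have f3 : TR3_F A B x y z x = A z x := by
          unfold TR3_F TR3_E
          rw [b3, if_neg (by omega)]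
          ring
        rw [f2, f3]
        by_cases hzk : z = k
        · subst hzk
          rw [hB.sym y z, hB.port, hA.sym z x, hA.port]
          unfold TR3_P TR3_d
          simp [hij.ne, hij.ne', hik.ne, hik.ne', hkj.ne, hkj.ne']
        · have e1 : B y z * A z x = 0 := by
            rcases Nat.lt_or_gt_of_ne hzk with h | h
            · rw [TR3_A0 hB (show y < k ∨ y < y ∨ z < k ∨ y < z by omega), zero_mul]
            · rw [TR3_A0 hA (show z < x ∨ k < z ∨ x < x ∨ k < x by omega), mul_zero]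
          rw [one_mul, e1]
          unfold TR3_P TR3_d
          simp [hij.ne, hij.ne', hik.ne, hik.ne', hkj.ne, hkj.ne', hzk, hzx, hzy]
  · have a1 : A x y = 0 := TR3_A0 hA (by omega)
    have b1 : B x y = 0 := TR3_A0 hB (by omega)
    have b2 : B y z = 0 := TR3_A0 hB (by omega)
    have a3 : A z x = 0 := TR3_A0 hA (by omega)
    have f1 : TR3_F A B y x x y = 1 := by
      unfold TR3_F TR3_E
      rw [a1, b1, if_pos (Or.inr ⟨rfl, rfl⟩)]
      norm_num
    rw [f1, a1, b1]
    by_cases hzx : z = x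
    · subst hzx
      rw [hF]
      unfold TR3_P TR3_d
      simp [hij.ne, hij.ne', hik.ne, hik.ne', hkj.ne, hkj.ne']
    · by_cases hzy : z = y
      · subst hzy
        rw [hF]
        unfold TR3_P TR3_d
        simp [hij.ne, hij.ne', hik.ne, hik.ne', hkj.ne, hkj.ne']
      · have f2 : TR3_F A B y x y z = A y z := by
          unfold TR3_F TR3_E
          rw [b2, if_neg (by omega)]
          ring
        have f3 : TR3_F A B y x z x = B z x := by
          unfold TR3_F TR3_E
          rw [a3, if_neg (by omega)]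
          ring
        rw [f2, f3]
        by_cases hzk : z = k
        · subst hzk
          rw [hB.port, hA.port]
          unfold TR3_P TR3_d
          simp [hij.ne, hij.ne', hik.ne, hik.ne', hkj.ne, hkj.ne']
        · have e1 : A y z * B z x = 0 := by
            rcases Nat.lt_or_gt_of_ne hzk with h | h
            · rw [TR3_A0 hB (show z < k ∨ x < z ∨ x < k ∨ x < x by omega), mul_zero]
            · rw [TR3_A0 hA (show y < y ∨ k < y ∨ z < y ∨ k < z by omega), zero_mul]
          rw [one_mul, e1]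
          unfold TR3_P TR3_d
          simp [hij.ne, hij.ne', hik.ne, hik.ne', hkj.ne, hkj.ne', hzk, hzx, hzy]

theorem TR3_key (hA : TR3_ok A i k) (hB : TR3_ok B k j) (hik : i < k) (hkj : k < j) (x y z : ℕ) :
    TR3_F A B i j x y * TR3_F A B i j y z * TR3_F A B i j z x =
      A x y * A y z * A z x + B x y * B y z * B z x + TR3_P i j k x y z := by
  by_cases h1 : (x = i ∧ y = j) ∨ (x = j ∧ y = i)
  · exact TR3_c1 hA hB hik hkj x y z h1
  · by_cases h2 : (y = i ∧ z = j) ∨ (y = j ∧ z = i)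
    · have := TR3_c1 hA hB hik hkj y z x h2
      rw [TR3_rot i j k x y z]
      linear_combination this
    · by_cases h3 : (z = i ∧ x = j) ∨ (z = j ∧ x = i)
      · have := TR3_c1 hA hB hik hkj z x y h3
        rw [TR3_rot i j k x y z, TR3_rot i j k y z x]
        linear_combination this
      · have hP : TR3_P i j k x y z = 0 := by
          have hd : ∀ a b c a' b' c' : ℕ, ¬ (a = a' ∧ b = b') → TR3_d a a' * TR3_d b b' * TR3_d c c' = 0 := by
            intro a b c a' b' c' h
            unfold TR3_d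
            by_cases e1 : a = a'
            · have e2 : b ≠ b' := fun e => h ⟨e1, e⟩
              rw [if_neg e2]; ring
            · rw [if_neg e1]; ring
          unfold TR3_P
          rw [hd x y z i j k (by tauto), hd x y z j i k (by tauto), hd y z x i j k (by tauto),
            hd y z x j i k (by tauto), hd z x y i j k (by tauto), hd z x y j i k (by tauto)]
          norm_num
        have m1 := TR3_L1 hA hB x y z
        have m2 := TR3_L1 hA hB z x y
        have m3 := TR3_L1 hA hB y z x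
        have m4 := TR3_L2 hA hB x y z
        have m5 := TR3_L2 hA hB y z x
        have m6 := TR3_L2 hA hB z x y
        rw [hP]
        unfold TR3_F TR3_E
        rw [if_neg h1, if_neg h2, if_neg h3]
        linear_combination m1 + m2 + m3 + m4 + m5 + m6

end key

theorem TR3_delta (N a b c : ℕ) (ha : a < N) (hb : b < N) (hc : c < N) :
    ∑ x ∈ range N, ∑ y ∈ range N, ∑ z ∈ range N, TR3_d x a * TR3_d y b * TR3_d z c = 1 := by
  have h1 : ∀ a : ℕ, a < N → ∑ x ∈ range N, TR3_d x a = 1 := by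
    intro a ha
    unfold TR3_d
    rw [Finset.sum_ite_eq', if_pos (Finset.mem_range.2 ha)]
  have h2 : ∀ x y : ℕ, ∑ z ∈ range N, TR3_d x a * TR3_d y b * TR3_d z c = TR3_d x a * TR3_d y b := by
    intro x y
    rw [← Finset.mul_sum, h1 c hc, mul_one]
  have h3 : ∀ x : ℕ, ∑ y ∈ range N, ∑ z ∈ range N, TR3_d x a * TR3_d y b * TR3_d z c = TR3_d x a := by
    intro x
    rw [Finset.sum_congr rfl fun y _ => h2 x y, ← Finset.mul_sum, h1 b hb, mul_one]
  rw [Finset.sum_congr rfl fun x _ => h3 x, h1 a ha]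

theorem TR3_Psum (N i j k : ℕ) (hi : i < N) (hj : j < N) (hk : k < N) :
    ∑ x ∈ range N, ∑ y ∈ range N, ∑ z ∈ range N, TR3_P i j k x y z = 6 := by
  unfold TR3_P
  simp only [Finset.sum_add_distrib]
  have e1 := TR3_delta N i j k hi hj hk
  have e2 := TR3_delta N j i k hj hi hk
  have e3 := TR3_delta N k i j hk hi hj
  have e4 := TR3_delta N k j i hk hj hi
  have e5 := TR3_delta N j k i hj hk hi
  have e6 := TR3_delta N i k j hi hk hj
  have g3 : ∑ x ∈ range N, ∑ y ∈ range N, ∑ z ∈ range N, TR3_d y i * TR3_d z j * TR3_d x k = 1 := by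
    rw [← e3]
    refine Finset.sum_congr rfl fun x _ => Finset.sum_congr rfl fun y _ => Finset.sum_congr rfl fun z _ => ?_
    ring
  have g4 : ∑ x ∈ range N, ∑ y ∈ range N, ∑ z ∈ range N, TR3_d y j * TR3_d z i * TR3_d x k = 1 := by
    rw [← e4]
    refine Finset.sum_congr rfl fun x _ => Finset.sum_congr rfl fun y _ => Finset.sum_congr rfl fun z _ => ?_
    ring
  have g5 : ∑ x ∈ range N, ∑ y ∈ range N, ∑ z ∈ range N, TR3_d z i * TR3_d x j * TR3_d y k = 1 := by
    rw [← e5]
    refine Finset.sum_congr rfl fun x _ => Finset.sum_congr rfl fun y _ => Finset.sum_congr rfl fun z _ => ?_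
    ring
  have g6 : ∑ x ∈ range N, ∑ y ∈ range N, ∑ z ∈ range N, TR3_d z j * TR3_d x i * TR3_d y k = 1 := by
    rw [← e6]
    refine Finset.sum_congr rfl fun x _ => Finset.sum_congr rfl fun y _ => Finset.sum_congr rfl fun z _ => ?_
    ring
  rw [e1, e2, g3, g4, g5, g6]
  norm_num

theorem TR3_main (hATS : ATS_stmt) (t : Tr) : ∀ (i N : ℕ), i + t.sz + 1 < N →
    ∑ x ∈ range N, ∑ y ∈ range N, ∑ z ∈ range N, TR3_B t i x y * TR3_B t i y z * TR3_B t i z x =
      6 * t.sz := by
  induction t with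
  | e =>
    intro i N _
    rw [Finset.sum_eq_zero]
    · simp [Tr.sz]
    intro x _
    refine Finset.sum_eq_zero fun y _ => Finset.sum_eq_zero fun z _ => ?_
    unfold TR3_B TR3_E
    simp only [AT, Tr.sz, add_zero]
    show (if (x = i ∧ y = i + 1) ∨ (x = i + 1 ∧ y = i) then (1 : ℝ) else 0) *
      (if (y = i ∧ z = i + 1) ∨ (y = i + 1 ∧ z = i) then (1 : ℝ) else 0) *
      (if (z = i ∧ x = i + 1) ∨ (z = i + 1 ∧ x = i) then (1 : ℝ) else 0) = 0
    by_cases h1 : (x = i ∧ y = i + 1) ∨ (x = i + 1 ∧ y = i)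
    · by_cases h2 : (y = i ∧ z = i + 1) ∨ (y = i + 1 ∧ z = i)
      · have h3 : ¬ ((z = i ∧ x = i + 1) ∨ (z = i + 1 ∧ x = i)) := by omega
        rw [if_neg h3]; ring
      · rw [if_neg h2]; ring
    · rw [if_neg h1]; ring
  | nd l r ihl ihr =>
    intro i N hN
    simp only [Tr.sz] at hN
    have hA := TR3_okB hATS l i
    have hB := TR3_okB hATS r (i + l.sz + 1)
    have e1 : ∀ x y, TR3_B (.nd l r) i x y =
        TR3_F (TR3_B l i) (TR3_B r (i + l.sz + 1)) i (i + l.sz + 1 + r.sz + 1) x y := by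
      intro x y
      unfold TR3_F
      rw [← TR3_nd]
      unfold TR3_B
      have : i + (Tr.nd l r).sz + 1 = i + l.sz + 1 + r.sz + 1 := by
        simp only [Tr.sz]; ring
      rw [this]
    have e2 : ∀ x y z, TR3_B (.nd l r) i x y * TR3_B (.nd l r) i y z * TR3_B (.nd l r) i z x =
        TR3_B l i x y * TR3_B l i y z * TR3_B l i z x +
        TR3_B r (i + l.sz + 1) x y * TR3_B r (i + l.sz + 1) y z * TR3_B r (i + l.sz + 1) z x +
        TR3_P i (i + l.sz + 1 + r.sz + 1) (i + l.sz + 1) x y z := by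
      intro x y z
      rw [e1, e1, e1]
      exact TR3_key hA hB (by omega) (by omega) x y z
    simp only [e2, Finset.sum_add_distrib]
    rw [ihl i N (by omega), ihr (i + l.sz + 1) N (by omega),
      TR3_Psum N i (i + l.sz + 1 + r.sz + 1) (i + l.sz + 1) (by omega) (by omega) (by omega)]
    simp only [Tr.sz]
    push_cast
    ring

theorem TR3 (hATS : ATS_stmt) : TR3_stmt := by
  intro τ
  have h := TR3_main hATS τ 0 (τ.sz + 2) (by omega)
  have e : ∀ x y, AG τ x y = TR3_B τ 0 x y := by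
    intro x y
    unfold AG TR3_B TR3_E
    rw [zero_add]
  simp only [e]
  exact h

end Pool.Agent.MO
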